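import Pool.Agent.H31.CN.T5

/-!
# (CSF) Cauchy's inequality over the family
-/

set_option autoImplicit false

namespace Pool.Agent.H95.CN

open Pool.Agent.H31.CN

theorem pf_CSF : T_CSF := by
  intro s G pr Z T hG hpr hT hZ
  have h1 : |∑ D ∈ s, G D * Z D| ≤ ∑ D ∈ s, √(G D * pr D) * √(G D * T D) := by
    refine (Finset.abs_sum_le_sum_abs _ _).trans (Finset.sum_le_sum fun D hD => ?_)
    rw [abs_mul, abs_of_nonneg (hG D hD), ← Real.sqrt_mul (mul_nonneg (hG D hD) (hpr D hD))]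
    have h2 : |Z D| ≤ √(pr D * T D) := by
      rw [← Real.sqrt_sq_eq_abs]
      exact Real.sqrt_le_sqrt (hZ D hD)
    have h3 : G D * pr D * (G D * T D) = G D ^ 2 * (pr D * T D) := by ring
    rw [h3, Real.sqrt_mul (sq_nonneg _), Real.sqrt_sq (hG D hD)]
    exact mul_le_mul_of_nonneg_left h2 (hG D hD)
  have h2 : ∑ D ∈ s, √(G D * pr D) * √(G D * T D) ≤
      √(∑ D ∈ s, G D * pr D) * √(∑ D ∈ s, G D * T D) := by
    have h3 := Finset.sum_mul_sq_le_sq_mul_sq s (fun D => √(G D * pr D)) (fun D => √(G D * T D))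
    have e1 : ∑ D ∈ s, √(G D * pr D) ^ 2 = ∑ D ∈ s, G D * pr D :=
      Finset.sum_congr rfl fun D hD => Real.sq_sqrt (mul_nonneg (hG D hD) (hpr D hD))
    have e2 : ∑ D ∈ s, √(G D * T D) ^ 2 = ∑ D ∈ s, G D * T D :=
      Finset.sum_congr rfl fun D hD => Real.sq_sqrt (mul_nonneg (hG D hD) (hT D hD))
    rw [e1, e2] at h3
    rw [← Real.sqrt_mul (Finset.sum_nonneg fun D hD => mul_nonneg (hG D hD) (hpr D hD))]
    exact Real.le_sqrt_of_sq_le h3
  have h3 := h1.trans h2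
  have h4 : 0 ≤ ∑ D ∈ s, G D * pr D := Finset.sum_nonneg fun D hD => mul_nonneg (hG D hD) (hpr D hD)
  have h5 : 0 ≤ ∑ D ∈ s, G D * T D := Finset.sum_nonneg fun D hD => mul_nonneg (hG D hD) (hT D hD)
  calc (∑ D ∈ s, G D * Z D) ^ 2 = |∑ D ∈ s, G D * Z D| ^ 2 := (sq_abs _).symm
    _ ≤ (√(∑ D ∈ s, G D * pr D) * √(∑ D ∈ s, G D * T D)) ^ 2 :=
        pow_le_pow_left₀ (abs_nonneg _) h3 2
    _ = _ := by rw [mul_pow, Real.sq_sqrt h4, Real.sq_sqrt h5]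

end Pool.Agent.H95.CN
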