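import Pool.Agent.H31.CN.T5
import Pool.Agent.H18.CG.CH

/-!
# (CSG) Cauchy's inequality over the characters of a finite abelian group
-/

set_option autoImplicit false

open Complex

namespace Pool.Agent.H95.CN

open Pool.Agent.H31.CN Pool.Agent.H18.CG

theorem pf_CSG : T_CSG := by
  intro G _ _ J
  classical
  have : Finite (G →* ℂˣ) := inferInstance
  have : Fintype (G →* ℂˣ) := Fintype.ofFinite _
  set A : (G →* ℂˣ) → ℂ := fun ψ => ∑ g, ((ψ g : ℂˣ) : ℂ) * ((J g : ℝ) : ℂ) with hA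
  have hc : Fintype.card (G →* ℂˣ) = Fintype.card G := by
    have := CommGroup.card_monoidHom_of_hasEnoughRootsOfUnity G ℂ
    rwa [Nat.card_eq_fintype_card, Nat.card_eq_fintype_card] at this
  -- the sum over all characters
  have hS : (∑ ψ : G →* ℂˣ, A ψ) = (((Fintype.card G : ℝ) * J 1 : ℝ) : ℂ) := by
    have e1 : (∑ ψ : G →* ℂˣ, A ψ) =
        ∑ g, (∑ ψ : G →* ℂˣ, ((ψ g : ℂˣ) : ℂ)) * ((J g : ℝ) : ℂ) := by
      simp only [hA]
      rw [Finset.sum_comm]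
      refine Finset.sum_congr rfl fun g _ => ?_
      rw [Finset.sum_mul]
    rw [e1, Finset.sum_eq_single 1]
    · simp only [map_one, Units.val_one, Finset.sum_const, Finset.card_univ, hc, nsmul_eq_mul,
        mul_one]
      push_cast
      ring
    · intro g _ hg
      rw [sum_all g hg, zero_mul]
    · intro h
      exact absurd (Finset.mem_univ 1) h
  -- Parseval
  have hP : ∑ ψ : G →* ℂˣ, ‖A ψ‖ ^ 2 = Fintype.card G * ∑ g, J g ^ 2 := by
    have e0 : ((∑ ψ : G →* ℂˣ, ‖A ψ‖ ^ 2 : ℝ) : ℂ) =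
        ∑ g, ∑ g', (∑ ψ : G →* ℂˣ, ((ψ (g * g'⁻¹) : ℂˣ) : ℂ)) * (((J g : ℝ) : ℂ) * ((J g' : ℝ) : ℂ)) := by
      rw [Complex.ofReal_sum]
      have e1 : ∀ ψ : G →* ℂˣ, ((‖A ψ‖ ^ 2 : ℝ) : ℂ) =
          ∑ g, ∑ g', ((ψ (g * g'⁻¹) : ℂˣ) : ℂ) * (((J g : ℝ) : ℂ) * ((J g' : ℝ) : ℂ)) := by
        intro ψ
        rw [Complex.ofReal_pow, ← Complex.mul_conj']
        simp only [hA]
        rw [map_sum, Finset.sum_mul_sum]
        refine Finset.sum_congr rfl fun g _ => Finset.sum_congr rfl fun g' _ => ?_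
        rw [map_mul, conj_char, Complex.conj_ofReal, map_mul, Units.val_mul]
        ring
      simp only [e1]
      rw [Finset.sum_comm]
      refine Finset.sum_congr rfl fun g _ => ?_
      rw [Finset.sum_comm]
      refine Finset.sum_congr rfl fun g' _ => ?_
      rw [Finset.sum_mul]
    have e2 : ∀ g, ∑ g', (∑ ψ : G →* ℂˣ, ((ψ (g * g'⁻¹) : ℂˣ) : ℂ)) *
        (((J g : ℝ) : ℂ) * ((J g' : ℝ) : ℂ)) = ((Fintype.card G * J g ^ 2 : ℝ) : ℂ) := by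
      intro g
      rw [Finset.sum_eq_single g]
      · simp only [mul_inv_cancel, map_one, Units.val_one, Finset.sum_const, Finset.card_univ, hc,
          nsmul_eq_mul, mul_one]
        push_cast
        ring
      · intro g' _ hne
        rw [sum_all (g * g'⁻¹) (by rw [Ne, mul_inv_eq_one]; exact fun h => hne h.symm), zero_mul]
      · intro h
        exact absurd (Finset.mem_univ g) h
    have e3 : ((∑ ψ : G →* ℂˣ, ‖A ψ‖ ^ 2 : ℝ) : ℂ) = ((Fintype.card G * ∑ g, J g ^ 2 : ℝ) : ℂ) := by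
      rw [e0, Finset.sum_congr rfl fun g _ => e2 g, ← Complex.ofReal_sum, Finset.mul_sum]
    exact_mod_cast e3
  -- Cauchy-Schwarz
  set F : Finset (G →* ℂˣ) := Finset.univ.filter fun ψ => A ψ ≠ 0 with hF
  have hcard : Nat.card {ψ : G →* ℂˣ // A ψ ≠ 0} = F.card := by
    rw [Nat.card_eq_fintype_card, Fintype.card_subtype]
  have hsum : (∑ ψ : G →* ℂˣ, A ψ) = ∑ ψ ∈ F, A ψ := by
    rw [hF]
    symm
    apply Finset.sum_subset (Finset.subset_univ _)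
    intro ψ _ hψ
    simp only [Finset.mem_filter, Finset.mem_univ, true_and, not_not] at hψ
    exact hψ
  have hCS : (∑ ψ ∈ F, ‖A ψ‖) ^ 2 ≤ (F.card : ℝ) * ∑ ψ ∈ F, ‖A ψ‖ ^ 2 := by
    exact sq_sum_le_card_mul_sum_sq
  have h1 : |(Fintype.card G : ℝ) * J 1| ≤ ∑ ψ ∈ F, ‖A ψ‖ := by
    have h2 : ‖∑ ψ : G →* ℂˣ, A ψ‖ = |(Fintype.card G : ℝ) * J 1| := by
      rw [hS, Complex.norm_real, Real.norm_eq_abs]
    rw [← h2, hsum]
    exact norm_sum_le _ _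
  have h2 : ∑ ψ ∈ F, ‖A ψ‖ ^ 2 ≤ Fintype.card G * ∑ g, J g ^ 2 := by
    rw [← hP]
    exact Finset.sum_le_sum_of_subset_of_nonneg (Finset.subset_univ _) fun _ _ _ => sq_nonneg _
  change _ ≤ (Nat.card {ψ : G →* ℂˣ // A ψ ≠ 0} : ℝ) * _
  rw [hcard]
  calc ((Fintype.card G : ℝ) * J 1) ^ 2 = |(Fintype.card G : ℝ) * J 1| ^ 2 := (sq_abs _).symm
    _ ≤ (∑ ψ ∈ F, ‖A ψ‖) ^ 2 := pow_le_pow_left₀ (abs_nonneg _) h1 2
    _ ≤ (F.card : ℝ) * ∑ ψ ∈ F, ‖A ψ‖ ^ 2 := hCS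
    _ ≤ _ := mul_le_mul_of_nonneg_left h2 (Nat.cast_nonneg _)

end Pool.Agent.H95.CN
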