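import Pool.Agent.H31.CN.T5

/-!
# (OB1) every ideal has an oriented basis
-/

set_option autoImplicit false

open NumberField Module
open scoped nonZeroDivisors ComplexConjugate

namespace Pool.Agent.H95.CN

open Pool.Agent.H31.CN

section

variable {K : Type} [Field K] [NumberField K]

theorem conj_ne (hr : Module.finrank ℚ K = 2) (hd : discr K < 0) (σ : K →+* ℂ) :
    ComplexEmbedding.conjugate σ ≠ σ := by
  intro h
  have h1 : ComplexEmbedding.IsReal σ := h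
  have h2 := InfinitePlace.card_add_two_mul_card_eq_rank K
  have h3 := sign_discr K
  rw [Int.sign_eq_neg_one_of_neg hd] at h3
  rw [hr] at h2
  have h4 : InfinitePlace.nrComplexPlaces K ≠ 0 := by
    intro h0
    rw [h0] at h3
    norm_num at h3
  have h5 : InfinitePlace.nrRealPlaces K = 0 := by omega
  have h6 : IsTotallyComplex K := nrRealPlaces_eq_zero_iff.1 h5
  exact IsTotallyComplex.complexEmbedding_not_isReal σ h1

open scoped Classical in
theorem univ_emb (hr : Module.finrank ℚ K = 2) (hd : discr K < 0) (σ : K →+* ℂ) :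
    (Finset.univ : Finset (K →ₐ[ℚ] ℂ)) =
      {σ.toRatAlgHom, (ComplexEmbedding.conjugate σ).toRatAlgHom} := by
  classical
  have hne : σ.toRatAlgHom ≠ (ComplexEmbedding.conjugate σ).toRatAlgHom := by
    intro h
    apply conj_ne hr hd σ
    ext x
    exact (DFunLike.congr_fun h x).symm
  symm
  apply Finset.eq_of_subset_of_card_le (Finset.subset_univ _)
  rw [Finset.card_univ, AlgHom.card ℚ K ℂ, hr, Finset.card_pair hne]

theorem tr_eq (hr : Module.finrank ℚ K = 2) (hd : discr K < 0) (σ : K →+* ℂ) (x : 𝓞 K) :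
    ((Algebra.trace ℤ (𝓞 K) x : ℤ) : ℂ) = σ (x : K) + conj (σ (x : K)) := by
  classical
  have hne : σ.toRatAlgHom ≠ (ComplexEmbedding.conjugate σ).toRatAlgHom := by
    intro h
    apply conj_ne hr hd σ
    ext x
    exact (DFunLike.congr_fun h x).symm
  have h1 := trace_eq_sum_embeddings (K := ℚ) (L := K) ℂ (x := (x : K))
  rw [univ_emb hr hd σ, Finset.sum_pair hne, ← Algebra.coe_trace_int] at h1
  simpa using h1

theorem nm_eq (hr : Module.finrank ℚ K = 2) (hd : discr K < 0) (σ : K →+* ℂ) (x : 𝓞 K) :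
    ((Algebra.norm ℤ x : ℤ) : ℝ) = Complex.normSq (σ (x : K)) := by
  classical
  have hne : σ.toRatAlgHom ≠ (ComplexEmbedding.conjugate σ).toRatAlgHom := by
    intro h
    apply conj_ne hr hd σ
    ext x
    exact (DFunLike.congr_fun h x).symm
  have h1 := Algebra.norm_eq_prod_embeddings ℚ ℂ (x : K)
  rw [univ_emb hr hd σ, Finset.prod_pair hne, ← Algebra.coe_norm_int] at h1
  have h2 : ((Algebra.norm ℤ x : ℤ) : ℂ) = σ (x : K) * conj (σ (x : K)) := by
    simpa using h1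
  rw [Complex.mul_conj] at h2
  exact_mod_cast h2

theorem discr_pair (hr : Module.finrank ℚ K = 2) (hd : discr K < 0) (σ : K →+* ℂ)
    (v : Fin 2 → 𝓞 K) :
    ((Algebra.discr ℤ v : ℤ) : ℝ) =
      -(4 * ((conj (σ (v 0 : K)) * σ (v 1 : K)).im) ^ 2) := by
  have h1 : ((Algebra.discr ℤ v : ℤ) : ℂ) =
      ((Algebra.trace ℤ (𝓞 K) (v 0 * v 0) : ℤ) : ℂ) * ((Algebra.trace ℤ (𝓞 K) (v 1 * v 1) : ℤ) : ℂ)
        - ((Algebra.trace ℤ (𝓞 K) (v 0 * v 1) : ℤ) : ℂ) *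
          ((Algebra.trace ℤ (𝓞 K) (v 1 * v 0) : ℤ) : ℂ) := by
    rw [Algebra.discr_def, Matrix.det_fin_two]
    simp only [Algebra.traceMatrix_apply, Algebra.traceForm_apply]
    push_cast
    ring
  rw [tr_eq hr hd σ, tr_eq hr hd σ, tr_eq hr hd σ, tr_eq hr hd σ] at h1
  simp only [map_mul] at h1
  have h2 : ((Algebra.discr ℤ v : ℤ) : ℂ) =
      ((-(4 * ((conj (σ (v 0 : K)) * σ (v 1 : K)).im) ^ 2) : ℝ) : ℂ) := by
    rw [h1]
    apply Complex.ext
    · simp [pow_two]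
      ring
    · simp [pow_two]
      ring
  exact_mod_cast h2

theorem discr_ideal (hr : Module.finrank ℚ K = 2) (I : Ideal (𝓞 K)) (bI : Basis (Fin 2) ℤ I) :
    Algebra.discr ℤ (fun i => (bI i : 𝓞 K)) = (Ideal.absNorm I : ℤ) ^ 2 * discr K := by
  have hr2 : Module.finrank ℤ (𝓞 K) = 2 := by rw [RingOfIntegers.rank, hr]
  obtain ⟨b0⟩ : Nonempty (Basis (Fin 2) ℤ (𝓞 K)) := ⟨Module.finBasisOfFinrankEq ℤ (𝓞 K) hr2⟩
  have h1 := Ideal.natAbs_det_basis_change b0 I bI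
  have h2 : Algebra.discr ℤ (fun i => (bI i : 𝓞 K)) =
      (b0.det (fun i => (bI i : 𝓞 K))) ^ 2 * discr K := by
    rw [← discr_eq_discr K b0, Basis.det_apply, ← Algebra.discr_of_matrix_vecMul,
      Basis.toMatrix_map_vecMul]
  rw [h2]
  have h3 : (b0.det (fun i => (bI i : 𝓞 K))) ^ 2 = (Ideal.absNorm I : ℤ) ^ 2 := by
    rw [← h1, Int.natCast_natAbs, sq_abs]
    rfl
  rw [h3]

end

/-- the statement with a basis whose orientation is known -/
theorem ob_of_basis (D : ℕ) (K : Type) [Field K] [NumberField K] (σ : K →+* ℂ)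
    (hr : Module.finrank ℚ K = 2) (hd : discr K = -(D : ℤ)) (hD : 3 < D)
    (I : Ideal (𝓞 K)) (hI : I ≠ ⊥) (α β : 𝓞 K) (hα : α ∈ I) (hβ : β ∈ I)
    (mem : ∀ γ : 𝓞 K, γ ∈ I ↔ ∃ v : ℤ × ℤ, γ = (v.1 : 𝓞 K) * α + (v.2 : 𝓞 K) * β)
    (inj : ∀ v : ℤ × ℤ, (v.1 : 𝓞 K) * α + (v.2 : 𝓞 K) * β = 0 → v = 0)
    (hdis : 4 * ((conj (σ (α : K)) * σ (β : K)).im) ^ 2 = (Ideal.absNorm I : ℝ) ^ 2 * D)
    (ori : 0 < (conj (σ (α : K)) * σ (β : K)).im) :
    ∃ Q : QF, Q ∈ FD D ∧ OB K σ I α β Q := by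
  have hdn : discr K < 0 := by rw [hd]; omega
  have hN0 : Ideal.absNorm I ≠ 0 := by
    rw [Ne, Ideal.absNorm_eq_zero_iff]
    exact hI
  have hNpos : (0 : ℝ) < Ideal.absNorm I := by exact_mod_cast Nat.pos_of_ne_zero hN0
  obtain ⟨A, hA⟩ := Ideal.absNorm_dvd_norm_of_mem hα
  obtain ⟨C, hC⟩ := Ideal.absNorm_dvd_norm_of_mem hβ
  obtain ⟨E, hE⟩ := Ideal.absNorm_dvd_norm_of_mem (I.add_mem hα hβ)
  have eA : (Ideal.absNorm I : ℝ) * A = Complex.normSq (σ (α : K)) := by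
    rw [← nm_eq hr hdn σ, hA]
    push_cast
    rfl
  have eC : (Ideal.absNorm I : ℝ) * C = Complex.normSq (σ (β : K)) := by
    rw [← nm_eq hr hdn σ, hC]
    push_cast
    rfl
  have eE : (Ideal.absNorm I : ℝ) * E = Complex.normSq (σ (α : K) + σ (β : K)) := by
    have h := nm_eq hr hdn σ (α + β)
    rw [hE] at h
    push_cast at h
    rw [map_add] at h
    exact h
  obtain ⟨a, ha⟩ : ∃ a : ℂ, a = σ (α : K) := ⟨_, rfl⟩
  obtain ⟨b, hb⟩ : ∃ b : ℂ, b = σ (β : K) := ⟨_, rfl⟩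
  obtain ⟨N, hN⟩ : ∃ N : ℝ, N = (Ideal.absNorm I : ℝ) := ⟨_, rfl⟩
  rw [← ha, ← hb, ← hN] at hdis eE
  rw [← ha, ← hb] at ori
  rw [← ha, ← hN] at eA
  rw [← hb, ← hN] at eC
  rw [← hN] at hNpos
  rw [Complex.normSq_apply] at eA eC eE
  simp only [Complex.add_re, Complex.add_im] at eE
  have hIm : (conj a * b).im = a.re * b.im - a.im * b.re := by
    simp
    ring
  rw [hIm] at hdis ori
  have eB : N * (E - A - C) = 2 * (a.re * b.re + a.im * b.im) := by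
    linear_combination eE - eA - eC
  have hdsc : (4 * (A : ℝ) * C - (E - A - C) ^ 2) = D := by
    have h1 : N ^ 2 * (4 * (A : ℝ) * C - (E - A - C) ^ 2) = N ^ 2 * D := by
      rw [← hdis]
      have h2 : N ^ 2 * (4 * (A : ℝ) * C - (E - A - C) ^ 2) =
          4 * (N * A) * (N * C) - (N * (E - A - C)) ^ 2 := by ring
      rw [h2, eA, eC, eB]
      ring
    exact mul_left_cancel₀ (pow_ne_zero 2 hNpos.ne') h1
  refine ⟨(A, E - A - C, C), ⟨?_, ?_⟩, ⟨mem, inj, ?_, ?_⟩⟩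
  · show 0 < A
    have h1 : (0 : ℝ) < N * A := by
      rw [eA]
      have h2 : ¬ (a.re = 0 ∧ a.im = 0) := by
        rintro ⟨h3, h4⟩
        rw [h3, h4] at ori
        simp at ori
      rcases not_and_or.1 h2 with h3 | h3
      · have := mul_self_pos.2 h3
        nlinarith [mul_self_nonneg a.im]
      · have := mul_self_pos.2 h3
        nlinarith [mul_self_nonneg a.re]
    have h2 : (0 : ℝ) < A := pos_of_mul_pos_right h1 hNpos.le
    exact_mod_cast h2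
  · show dsc (A, E - A - C, C) = D
    unfold dsc
    exact_mod_cast hdsc
  · intro v
    have hσ : σ (((v.1 : 𝓞 K) * α + (v.2 : 𝓞 K) * β : 𝓞 K) : K) = (v.1 : ℂ) * a + (v.2 : ℂ) * b := by
      rw [ha, hb]
      push_cast
      simp
    rw [hσ, ← hN, Complex.normSq_apply]
    unfold val
    push_cast
    simp only [Complex.add_re, Complex.add_im, Complex.mul_re, Complex.mul_im, Complex.intCast_re,
      Complex.intCast_im, zero_mul, sub_zero, add_zero]
    linear_combination -(v.1 : ℝ) ^ 2 * eA - (v.1 : ℝ) * v.2 * eB - (v.2 : ℝ) ^ 2 * eC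
  · show 0 < (conj (σ (α : K)) * σ (β : K)).im
    rw [← ha, ← hb, hIm]
    exact ori

theorem pf_OB1 : T_OB1 := by
  intro D K _ _ σ hD3 hD4 hr hd I hI
  have hdn : discr K < 0 := by rw [hd]; omega
  have hr2 : Module.finrank ℤ (𝓞 K) = 2 := by rw [RingOfIntegers.rank, hr]
  obtain ⟨b0⟩ : Nonempty (Basis (Fin 2) ℤ (𝓞 K)) := ⟨Module.finBasisOfFinrankEq ℤ (𝓞 K) hr2⟩
  obtain ⟨bI⟩ : Nonempty (Basis (Fin 2) ℤ I) := ⟨Ideal.selfBasis b0 I hI⟩
  have h1 := discr_ideal hr I bI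
  have h2 := discr_pair hr hdn σ (fun i => (bI i : 𝓞 K))
  rw [h1, hd] at h2
  have hdis : 4 * ((conj (σ ((bI 0 : 𝓞 K) : K)) * σ ((bI 1 : 𝓞 K) : K)).im) ^ 2 =
      (Ideal.absNorm I : ℝ) ^ 2 * D := by
    push_cast at h2
    linarith
  have hN0 : Ideal.absNorm I ≠ 0 := by
    rw [Ne, Ideal.absNorm_eq_zero_iff]
    exact hI
  have hNpos : (0 : ℝ) < Ideal.absNorm I := by exact_mod_cast Nat.pos_of_ne_zero hN0
  have hne : (conj (σ ((bI 0 : 𝓞 K) : K)) * σ ((bI 1 : 𝓞 K) : K)).im ≠ 0 := by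
    intro h0
    rw [h0] at hdis
    have : (0 : ℝ) < (Ideal.absNorm I : ℝ) ^ 2 * D := by
      have : (0 : ℝ) < D := by
        have : 0 < D := by omega
        exact_mod_cast this
      positivity
    linarith
  have memI : ∀ γ : 𝓞 K, γ ∈ I ↔ ∃ v : ℤ × ℤ, γ = (v.1 : 𝓞 K) * (bI 0 : 𝓞 K) +
      (v.2 : 𝓞 K) * (bI 1 : 𝓞 K) := by
    intro γ
    constructor
    · intro hγ
      have h3 := bI.sum_repr ⟨γ, hγ⟩
      rw [Fin.sum_univ_two] at h3
      refine ⟨(bI.repr ⟨γ, hγ⟩ 0, bI.repr ⟨γ, hγ⟩ 1), ?_⟩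
      have h4 := congrArg (Subtype.val) h3
      simp only [Submodule.coe_add, Submodule.coe_smul_of_tower, zsmul_eq_mul] at h4
      exact h4.symm
    · rintro ⟨v, rfl⟩
      exact I.add_mem (I.mul_mem_left _ (bI 0).2) (I.mul_mem_left _ (bI 1).2)
  have injI : ∀ v : ℤ × ℤ, (v.1 : 𝓞 K) * (bI 0 : 𝓞 K) + (v.2 : 𝓞 K) * (bI 1 : 𝓞 K) = 0 →
      v = 0 := by
    intro v hv
    have h3 := bI.linearIndependent
    rw [Fintype.linearIndependent_iff] at h3
    have h4 := h3 ![v.1, v.2] (by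
      rw [Fin.sum_univ_two]
      apply Subtype.ext
      simp only [Matrix.cons_val_zero, Matrix.cons_val_one, Submodule.coe_add,
        Submodule.coe_smul_of_tower, zsmul_eq_mul, ZeroMemClass.coe_zero]
      exact hv)
    exact Prod.ext (h4 0) (h4 1)
  rcases lt_or_gt_of_ne hne with hlt | hgt
  · refine ⟨(bI 1 : 𝓞 K), (bI 0 : 𝓞 K), ?_⟩
    have hsw : (conj (σ ((bI 1 : 𝓞 K) : K)) * σ ((bI 0 : 𝓞 K) : K)).im =
        -(conj (σ ((bI 0 : 𝓞 K) : K)) * σ ((bI 1 : 𝓞 K) : K)).im := by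
      simp
      ring
    refine ob_of_basis D K σ hr hd hD3 I hI _ _ (bI 1).2 (bI 0).2 ?_ ?_ ?_ ?_
    · intro γ
      rw [memI γ]
      constructor
      · rintro ⟨v, hv⟩
        exact ⟨(v.2, v.1), by rw [hv, add_comm]⟩
      · rintro ⟨v, hv⟩
        exact ⟨(v.2, v.1), by rw [hv, add_comm]⟩
    · intro v hv
      have := injI (v.2, v.1) (by rw [← hv, add_comm])
      exact Prod.ext (congrArg Prod.snd this) (congrArg Prod.fst this)
    · rw [hsw, neg_sq]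
      exact hdis
    · rw [hsw]
      linarith
  · refine ⟨(bI 0 : 𝓞 K), (bI 1 : 𝓞 K), ?_⟩
    exact ob_of_basis D K σ hr hd hD3 I hI _ _ (bI 0).2 (bI 1).2 memI injI hdis hgt

end Pool.Agent.H95.CN
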