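import Pool.Agent.H31.CN.T5

/-!
# (OB5) divisors of squarefree norm
-/

set_option autoImplicit false

open NumberField
open scoped nonZeroDivisors

namespace Pool.Agent.H95.CN

open Pool.Agent.H31.CN

section

variable (K : Type) [Field K] [NumberField K]

/-- the divisors of norm `m` -/
abbrev Dv (b : (Ideal (𝓞 K))⁰) (m : ℕ) : Type :=
  {P : Ideal (𝓞 K) // Ideal.absNorm P = m ∧ P ∣ (b : Ideal (𝓞 K))}

variable {K}

theorem span_sup {m n : ℕ} (h : m.Coprime n) :
    Ideal.span {(m : 𝓞 K)} ⊔ Ideal.span {(n : 𝓞 K)} = ⊤ := by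
  have h1 : IsCoprime (m : ℤ) (n : ℤ) := Nat.isCoprime_iff_coprime.2 h
  obtain ⟨a, c, hac⟩ := h1
  rw [Ideal.eq_top_iff_one, Submodule.mem_sup]
  refine ⟨(a : 𝓞 K) * m, Ideal.mul_mem_left _ _ (Ideal.mem_span_singleton_self _),
    (c : 𝓞 K) * n, Ideal.mul_mem_left _ _ (Ideal.mem_span_singleton_self _), ?_⟩
  exact_mod_cast congrArg (fun x : ℤ => (x : 𝓞 K)) hac

theorem cop {m n : ℕ} (h : m.Coprime n) {P Q : Ideal (𝓞 K)} (hP : Ideal.absNorm P = m)
    (hQ : Ideal.absNorm Q = n) : IsCoprime P Q := by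
  rw [Ideal.isCoprime_iff_sup_eq, eq_top_iff, ← span_sup (K := K) h]
  refine sup_le_sup ?_ ?_
  · rw [← hP]; exact Ideal.span_singleton_absNorm_le P
  · rw [← hQ]; exact Ideal.span_singleton_absNorm_le Q

theorem eq_of_dvd_norm {P Q : Ideal (𝓞 K)} (h : P ∣ Q) (hN : Ideal.absNorm P = Ideal.absNorm Q)
    (h0 : Ideal.absNorm P ≠ 0) : P = Q := by
  obtain ⟨R, rfl⟩ := h
  rw [map_mul] at hN
  have h1 : Ideal.absNorm R = 1 := by
    have : Ideal.absNorm P * 1 = Ideal.absNorm P * Ideal.absNorm R := by rw [mul_one]; exact hN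
    exact (Nat.eq_of_mul_eq_mul_left (Nat.pos_of_ne_zero h0) this).symm
  rw [Ideal.absNorm_eq_one_iff] at h1
  rw [h1, Ideal.mul_top]

theorem card_mul (b : (Ideal (𝓞 K))⁰) {m n : ℕ} (hm : m ≠ 0) (hn : n ≠ 0) (h : m.Coprime n) :
    Nat.card (Dv K b (m * n)) = Nat.card (Dv K b m) * Nat.card (Dv K b n) := by
  rw [← Nat.card_prod]
  symm
  refine Nat.card_eq_of_bijective (fun x : Dv K b m × Dv K b n => (⟨x.1.1 * x.2.1, by
    refine ⟨by rw [map_mul, x.1.2.1, x.2.2.1], ?_⟩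
    exact (cop h x.1.2.1 x.2.2.1).mul_dvd x.1.2.2 x.2.2.2⟩ : Dv K b (m * n))) ⟨?_, ?_⟩
  · rintro ⟨⟨P, hP, hPb⟩, ⟨Q, hQ, hQb⟩⟩ ⟨⟨P', hP', hPb'⟩, ⟨Q', hQ', hQb'⟩⟩ he
    have he' : P * Q = P' * Q' := congrArg Subtype.val he
    have h1 : P ∣ P' := by
      have : P ∣ P' * Q' := he' ▸ dvd_mul_right P Q
      exact (cop h hP hQ').dvd_of_dvd_mul_right this
    have h2 : Q ∣ Q' := by
      have : Q ∣ P' * Q' := he' ▸ dvd_mul_left Q P
      exact (cop h hP' hQ).symm.dvd_of_dvd_mul_left this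
    have e1 : P = P' := eq_of_dvd_norm h1 (hP.trans hP'.symm) (by rw [hP]; exact hm)
    have e2 : Q = Q' := eq_of_dvd_norm h2 (hQ.trans hQ'.symm) (by rw [hQ]; exact hn)
    subst e1 e2
    rfl
  · rintro ⟨P, hP, hPb⟩
    obtain ⟨P1, hP1⟩ : ∃ P1 : Ideal (𝓞 K), P1 = P ⊔ Ideal.span {(m : 𝓞 K)} := ⟨_, rfl⟩
    obtain ⟨P2, hP2⟩ : ∃ P2 : Ideal (𝓞 K), P2 = P ⊔ Ideal.span {(n : 𝓞 K)} := ⟨_, rfl⟩
    have hle1 : P ≤ P1 := hP1 ▸ le_sup_left
    have hle2 : P ≤ P2 := hP2 ▸ le_sup_left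
    have hmn : Ideal.span {(m : 𝓞 K)} * Ideal.span {(n : 𝓞 K)} ≤ P := by
      rw [Ideal.span_singleton_mul_span_singleton]
      have h1 := Ideal.span_singleton_absNorm_le P
      rw [hP] at h1
      push_cast at h1
      exact h1
    have hprod : P1 * P2 = P := by
      apply le_antisymm
      · rw [hP1, hP2, Ideal.mul_sup, Ideal.sup_mul, Ideal.sup_mul]
        exact sup_le (sup_le Ideal.mul_le_right Ideal.mul_le_right)
          (sup_le Ideal.mul_le_left hmn)
      · calc P = P * (Ideal.span {(m : 𝓞 K)} ⊔ Ideal.span {(n : 𝓞 K)}) := by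
              rw [span_sup h, Ideal.mul_top]
          _ = P * Ideal.span {(m : 𝓞 K)} ⊔ P * Ideal.span {(n : 𝓞 K)} := Ideal.mul_sup _ _ _
          _ ≤ P1 * P2 := by
              refine sup_le ?_ ?_
              · rw [mul_comm]
                exact Ideal.mul_mono (hP1 ▸ le_sup_right) hle2
              · exact Ideal.mul_mono hle1 (hP2 ▸ le_sup_right)
    have hN : Ideal.absNorm P1 * Ideal.absNorm P2 = m * n := by
      rw [← map_mul, hprod, hP]
    have hd1 : Ideal.absNorm P1 ∣ m ^ Module.finrank ℤ (𝓞 K) := by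
      have h1 : Ideal.span {(m : 𝓞 K)} ≤ P1 := hP1 ▸ le_sup_right
      have h2 := Ideal.absNorm_dvd_absNorm_of_le h1
      rwa [Ideal.absNorm_span_natCast] at h2
    have hd2 : Ideal.absNorm P2 ∣ n ^ Module.finrank ℤ (𝓞 K) := by
      have h1 : Ideal.span {(n : 𝓞 K)} ≤ P2 := hP2 ▸ le_sup_right
      have h2 := Ideal.absNorm_dvd_absNorm_of_le h1
      rwa [Ideal.absNorm_span_natCast] at h2
    have hc1 : (Ideal.absNorm P1).Coprime n :=
      Nat.Coprime.coprime_dvd_left hd1 (Nat.Coprime.pow_left _ h)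
    have hc2 : (Ideal.absNorm P2).Coprime m :=
      Nat.Coprime.coprime_dvd_left hd2 (Nat.Coprime.pow_left _ h.symm)
    have h1 : Ideal.absNorm P1 ∣ m := hc1.dvd_of_dvd_mul_right (hN ▸ dvd_mul_right _ _)
    have h2 : Ideal.absNorm P2 ∣ n := hc2.dvd_of_dvd_mul_left (hN ▸ dvd_mul_left _ _)
    obtain ⟨u, hu⟩ := h1
    obtain ⟨w, hw⟩ := h2
    have hP1pos : 0 < Ideal.absNorm P1 := by
      rcases Nat.eq_zero_or_pos (Ideal.absNorm P1) with h0 | h0
      · rw [h0, zero_mul] at hu; exact absurd hu hm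
      · exact h0
    have hP2pos : 0 < Ideal.absNorm P2 := by
      rcases Nat.eq_zero_or_pos (Ideal.absNorm P2) with h0 | h0
      · rw [h0, zero_mul] at hw; exact absurd hw hn
      · exact h0
    have huw : u * w = 1 := by
      have h3 : (Ideal.absNorm P1 * Ideal.absNorm P2) * (u * w) =
          (Ideal.absNorm P1 * Ideal.absNorm P2) * 1 := by
        rw [mul_one, hN]
        nth_rewrite 1 [← hN]
        calc Ideal.absNorm P1 * Ideal.absNorm P2 * (u * w) =
              (Ideal.absNorm P1 * u) * (Ideal.absNorm P2 * w) := by ring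
          _ = m * n := by rw [← hu, ← hw]
      exact Nat.eq_of_mul_eq_mul_left (Nat.mul_pos hP1pos hP2pos) h3
    have hu1 : u = 1 := Nat.eq_one_of_mul_eq_one_right huw
    have hw1 : w = 1 := Nat.eq_one_of_mul_eq_one_left huw
    rw [hu1, mul_one] at hu
    rw [hw1, mul_one] at hw
    refine ⟨⟨⟨P1, hu.symm, dvd_trans (Dvd.intro _ hprod) hPb⟩,
      ⟨P2, hw.symm, dvd_trans (Dvd.intro_left _ hprod) hPb⟩⟩, ?_⟩
    exact Subtype.ext hprod

theorem card_one (b : (Ideal (𝓞 K))⁰) : Nat.card (Dv K b 1) = 1 := by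
  rw [Nat.card_eq_one_iff_unique]
  refine ⟨⟨fun x y => ?_⟩, ⟨⟨⊤, Ideal.absNorm_top, ?_⟩⟩⟩
  · exact Subtype.ext ((Ideal.absNorm_eq_one_iff.1 x.2.1).trans
      (Ideal.absNorm_eq_one_iff.1 y.2.1).symm)
  · rw [← Ideal.one_eq_top]
    exact one_dvd _

end

theorem pf_OB5 : T_OB5 := by
  intro K _ _ b m
  induction m using Nat.strong_induction_on with
  | _ m ih =>
    intro hm
    by_cases h1 : m = 1
    · subst h1
      rw [Nat.primeFactors_one, Finset.prod_empty]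
      exact card_one b
    · have hm0 : m ≠ 0 := hm.ne_zero
      obtain ⟨p, hp, n, rfl⟩ : ∃ p, p.Prime ∧ ∃ n, m = p * n := by
        obtain ⟨p, hp, hd⟩ := Nat.exists_prime_and_dvd h1
        exact ⟨p, hp, hd⟩
      have hn0 : n ≠ 0 := right_ne_zero_of_mul hm0
      have hc : p.Coprime n := (Nat.squarefree_mul_iff.1 hm).1
      have hns : Squarefree n := (Nat.squarefree_mul_iff.1 hm).2.2
      have hlt : n < p * n := by
        have := hp.two_le
        nlinarith [Nat.pos_of_ne_zero hn0]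
      rw [Nat.Coprime.primeFactors_mul hc, hp.primeFactors, Finset.prod_union
        (by
          rw [Finset.disjoint_singleton_left]
          intro h
          exact (Nat.Prime.coprime_iff_not_dvd hp).1 hc (Nat.dvd_of_mem_primeFactors h)),
        Finset.prod_singleton, ← ih n hlt hns]
      exact card_mul b hp.ne_zero hn0 hc

end Pool.Agent.H95.CN
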