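import Pool.Agent.H57.CN.Targets

/-!
# Limits have homogeneity without algebraicity (row AMD)
-/

set_option autoImplicit false
set_option linter.unusedVariables false

namespace Pool.Agent.H95.CN

open Pool.Agent.H68.BP Pool.Agent.H58.SF Pool.Agent.H53.NR
open Pool.Agent.H57.AR (tp ty Ty)
open Pool.Agent.H44.KR (HB Amg Tyi TpOn LcN)
open Pool.Agent.H57.CN
open Function

theorem pf_AMD : Pool.Agent.H57.CN.T_AMD := by
  classical
  intro δ K 𝔻 hK hL W _ A x y F hT
  obtain ⟨hT1, hT2⟩ := hT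
  have hYf : Set.Finite (y '' A ∪ (F : Set ℕ)) :=
    ((Set.toFinite A).image y).union F.finite_toSet
  have hZf : Set.Finite (Set.range x \ x '' A) := (Set.finite_range x).subset Set.sdiff_subset
  let Yt : Type := {v : ℕ // v ∈ y '' A ∪ (F : Set ℕ)}
  let Zt : Type := {v : ℕ // v ∈ Set.range x \ x '' A}
  have : Finite Yt := hYf.to_subtype
  have : Finite Zt := hZf.to_subtype
  let W' : Type := Yt ⊕ Zt
  let pX : W' → ℕ := Sum.elim
    (fun v => if h : (v : ℕ) ∈ y '' A then x h.choose else 0) (fun v => (v : ℕ))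
  let pY : W' → ℕ := Sum.elim (fun v => (v : ℕ)) (fun _ => 0)
  let A' : Set W' := {w | ∀ v, w = Sum.inl v → (v : ℕ) ∈ y '' A}
  let B' : Set W' := {w | ∃ v, w = Sum.inl v}
  -- values of `pX`
  have hpl : ∀ (v : Yt) (a : W), a ∈ A → y a = v → pX (Sum.inl v) = x a := by
    intro v a ha hav
    have h : (v : ℕ) ∈ y '' A := ⟨a, ha, hav⟩
    have h1 : pX (Sum.inl v) = x h.choose := by
      show (if h : (v : ℕ) ∈ y '' A then x h.choose else 0) = x h.choose
      rw [dif_pos h]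
    rw [h1]
    exact (hT1 _ h.choose_spec.1 _ ha).2 (h.choose_spec.2.trans hav.symm)
  have hpr : ∀ v : Zt, pX (Sum.inr v) = v := fun v => rfl
  have hXinj : ∀ w ∈ A', ∀ w' ∈ A', pX w = pX w' → w = w' := by
    rintro (v | v) hw (v' | v') hw' he
    · obtain ⟨a, ha, hav⟩ := hw v rfl
      obtain ⟨a', ha', hav'⟩ := hw' v' rfl
      rw [hpl v a ha hav, hpl v' a' ha' hav'] at he
      have h1 := (hT1 a ha a' ha').1 he
      have : v = v' := Subtype.ext (by rw [← hav, ← hav', h1])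
      rw [this]
    · obtain ⟨a, ha, hav⟩ := hw v rfl
      rw [hpl v a ha hav, hpr v'] at he
      exact absurd ⟨a, ha, he⟩ v'.2.2
    · obtain ⟨a, ha, hav⟩ := hw' v' rfl
      rw [hpl v' a ha hav, hpr v] at he
      exact absurd ⟨a, ha, he.symm⟩ v.2.2
    · rw [hpr v, hpr v'] at he
      have : v = v' := Subtype.ext he
      rw [this]
  have hYinj : ∀ w ∈ B', ∀ w' ∈ B', pY w = pY w' → w = w' := by
    rintro w ⟨v, rfl⟩ w' ⟨v', rfl⟩ he
    have : v = v' := Subtype.ext he
    rw [this]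
  have hcov : ∀ w : W', w ∈ A' ∨ w ∈ B' := by
    rintro (v | v)
    · exact Or.inr ⟨v, rfl⟩
    · exact Or.inl (fun v' h => by cases h)
  have hKX : K A' (pull (pull 𝔻 pX) Subtype.val) :=
    hL.age A' (fun w => pX w) (fun w w' h => Subtype.ext (hXinj _ w.2 _ w'.2 h))
  have hKY : K B' (pull (pull 𝔻 pY) Subtype.val) :=
    hL.age B' (fun w => pY w) (fun w w' h => Subtype.ext (hYinj _ w.2 _ w'.2 h))
  have hAg : AgO (A' ∩ B') (pull 𝔻 pX) (pull 𝔻 pY) := by
    intro l z hz
    have h1 : ∀ i, ∃ a, a ∈ A ∧ pX (z i) = x a ∧ pY (z i) = y a := by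
      intro i
      obtain ⟨v, hv⟩ := (hz i).2
      obtain ⟨a, ha, hav⟩ := (hz i).1 v hv
      exact ⟨a, ha, by rw [hv]; exact hpl v a ha hav, by rw [hv]; exact hav.symm⟩
    choose a ha hax hay using h1
    have h2 := hT2 l a ha
    have e1 : (fun i => pX (z i)) = fun i => x (a i) := funext hax
    have e2 : (fun i => pY (z i)) = fun i => y (a i) := funext hay
    show 𝔻 l (fun i => pX (z i)) ↔ 𝔻 l (fun i => pY (z i))
    rw [e1, e2]
    exact h2
  obtain ⟨𝕎, hKW, hWX, hWY⟩ := hK.amg W' A' B' (pull 𝔻 pX) (pull 𝔻 pY) hcov hKX hKY hAg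
  obtain ⟨u, hu, huB, hpu⟩ := hL.ext W' B' pY 𝕎 (fun w hw w' hw' h => hYinj w hw w' hw' h) hKW
    (fun l z hz => (hWY l z hz).symm)
  -- the map `q`
  have hq : ∀ w : W, ∃ t : W', t ∈ A' ∧ pX t = x w := by
    intro w
    by_cases h : x w ∈ x '' A
    · obtain ⟨a, ha, hax⟩ := h
      refine ⟨Sum.inl ⟨y a, Or.inl ⟨a, ha, rfl⟩⟩, ?_, ?_⟩
      · intro v hv
        have : v = ⟨y a, Or.inl ⟨a, ha, rfl⟩⟩ := (Sum.inl.inj hv).symm
        rw [this]
        exact ⟨a, ha, rfl⟩
      · rw [hpl _ a ha rfl]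
        exact hax
    · refine ⟨Sum.inr ⟨x w, ⟨w, rfl⟩, h⟩, ?_, rfl⟩
      intro v hv
      cases hv
  choose q hqA hqx using hq
  have hqA' : ∀ a ∈ A, u (q a) = y a := by
    intro a ha
    have h1 : q a = Sum.inl ⟨y a, Or.inl ⟨a, ha, rfl⟩⟩ := by
      apply hXinj _ (hqA a)
      · intro v hv
        have : v = ⟨y a, Or.inl ⟨a, ha, rfl⟩⟩ := (Sum.inl.inj hv).symm
        rw [this]
        exact ⟨a, ha, rfl⟩
      · rw [hqx, hpl _ a ha rfl]
    rw [h1, huB _ ⟨_, rfl⟩]
    rfl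
  refine ⟨fun w => u (q w), ?_, hqA', ?_⟩
  · refine Prod.ext ?_ ?_
    · funext a b
      show (u (q a) = u (q b)) = (x a = x b)
      apply propext
      constructor
      · intro h
        rw [← hqx a, ← hqx b, hu h]
      · intro h
        have : q a = q b := hXinj _ (hqA a) _ (hqA b) (by rw [hqx, hqx, h])
        rw [this]
    · funext l z
      show 𝔻 l (fun i => u (q (z i))) = 𝔻 l (fun i => x (z i))
      apply propext
      have h1 : 𝔻 l (fun i => u (q (z i))) ↔ 𝕎 l (fun i => q (z i)) := by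
        have := congrFun (congrFun hpu l) (fun i => q (z i))
        exact Iff.of_eq this
      have h2 : 𝕎 l (fun i => q (z i)) ↔ 𝔻 l (fun i => pX (q (z i))) :=
        hWX l _ (fun i => hqA (z i))
      have e : (fun i => pX (q (z i))) = fun i => x (z i) := funext fun i => hqx (z i)
      rw [h1, h2, e]
  · intro w hw
    have hw : u (q w) ∈ F := hw
    rcases hqw : q w with v | v
    · have h1 := hqA w
      rw [hqw] at h1
      obtain ⟨a, ha, hav⟩ := h1 v rfl
      refine ⟨a, ha, ?_⟩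
      show u (q w) = u (q a)
      rw [hqA' a ha, hqw, huB _ ⟨v, rfl⟩]
      exact hav.symm
    · exfalso
      rw [hqw] at hw
      have h2 : u (Sum.inl ⟨u (Sum.inr v), Or.inr hw⟩) = u (Sum.inr v) := by
        rw [huB _ ⟨_, rfl⟩]
        rfl
      have h3 := hu h2
      cases h3

end Pool.Agent.H95.CN
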